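import Pool.Agent.H66.SC.T4

/-!
# The pro-`ℓ` section conjecture for coverings of the line

Let `k` be a finite extension of `ℚ_p`, or any complete discretely valued field of characteristic
zero with finite residue field, let `A` be its valuation ring, let `ℓ` be a prime number which is
invertible in `A`, and let `f ∈ A[x]` be a polynomial with invertible leading coefficient and
separable reduction, whose degree is at least 3 and divisible by `ℓ`.  Let `M` be the maximal unramified
pro-`ℓ` extension of `k̄(x, y)`, `y^ℓ = f(x)`.  It is the maximal pro-`ℓ` extension of `k̄(x)` unramified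
outside the set `D` of the roots of `f` and with ramification indices 1 or `ℓ` above `D`, and
`Gal(M/k(x))` is the geometrically pro-`ℓ` fundamental group of the orbifold `(ℙ¹, D)`.

Let `L` be any field with `k(x) ⊆ L ⊆ M`.  If `L/k(x)` is finite and `k` is algebraically closed in `L`,
this is the function field of an arbitrary geometrically connected covering `Y → ℙ¹` over `k`, whose
Galois closure over `k̄` has a Galois group of `ℓ`-power order and ramification indices 1 or `ℓ` above `D`,
and is unramified elsewhere.  The covering `Y → ℙ¹` need not be Galois, and `Y` need not have a map to a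
curve `d y^ℓ = f(x)`.  If all ramification indices of `Y → ℙ¹` above `D` are equal to `ℓ`, then `Gal(M/L)`
is the geometrically pro-`ℓ` fundamental group of `Y`, in general it is the one of an orbifold.  These
curves have potentially good reduction, and the residue field of `k̄ L` for the Gauss valuation (with
respect to `x`) is the function field of the special fibre of a good model over a ramified extension
of `k`.  The inertia group of `k` acts on it; if the genus of `Y` is at least 2, this action is trivial
if and only if `Y` has good reduction over an unramified extension of `k`.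

**Theorem.**  Suppose that the inertia group of `k` acts nontrivially on the residue field of `k̄ L` for
the Gauss valuation.  Then every section of `Gal(M/L) → G_k` is the section of exactly one point of `Y`
above `D`, and this is a `k`-rational point of `Y`.

In particular, if `π₁(Y) → G_k` has a section, then `Y` has a rational point above a root of `f`; the
section conjecture is reduced to statements of this form.  The assumption is satisfied if `L` contains a
function `z` with `d z^ℓ = h(x)`, where `h ∈ A[x]` has a coefficient which is a unit, and where the
valuation of `d ∈ k` is not divisible by `ℓ` (this is the second case of the assumption in the Lean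
statement, where it is not necessary to construct the action of the inertia group).

The library result `MP_c385f6_ag.EtaleCoverings` is the case where `L` contains a function `y` with
`d y^ℓ = f(x)` for the whole polynomial `f`, where the valuation of `d` is not divisible by `ℓ`.

Examples (`ℓ = 2`).  (1) Let `f = f_1 f_2`, where the degrees of `f_1` and `f_2` are even, and let `Y`
be the curve `ϖ y_1² = f_1(x)`, `ϖ y_2² = f_2(x)`, where `ϖ` is a uniformiser.  With `y = ϖ y_1 y_2`
this is an étale covering of the curve `y² = f(x)` with good reduction, which may have many points and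
sections.  By the theorem `π₁(Y) → G_k` has no section: there would be a rational point of `Y` above
a root `e` of `f_1`, say, and `f_2(e)/ϖ` would be a square.  (2) Let `f = f_1 f_2 f_3`, where the degrees
of `f_1`, `f_2`, `f_3` are even and positive, and let `a, b ∈ kˣ` be such that the valuation of `a` is odd
and that of `b` is arbitrary.  The curve `Y`: `a u² = f_1(x) f_2(x)`, `b v² = f_2(x) f_3(x)` is not an
étale covering of a curve `c y² = f(x)`, also not over `k̄`.  All ramification indices above `D` are 2, so
all sections of its geometrically pro-2 fundamental group come from rational points above `D`.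

Proof.  Let `s` be a section of `Gal(M/L)`.  The automorphisms `s(σ)` multiply `y` by roots of unity,
`s(σ) y = ζ_σ y`, and `ζ` is a cocycle.  By Hilbert's Theorem 90, `ζ_σ = σ(δ)/δ` for some `δ ∈ k̄` with
`c = δ^ℓ ∈ k`.  So `s` fixes `y_1 = y/δ`, and it is also a section for the curve `C : c y_1^ℓ = f(x)`,
and the field `M` is the same for `C`.  The number `c` depends on `s`.  If its valuation is not divisible
by `ℓ`, then the library result `EtaleCoverings` can be applied to the étale covering of `C` with
function field `L(y_1)`, and this proves the theorem.  Suppose that the valuation is divisible by `ℓ`.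
Then `C` has good reduction over an unramified extension of `k`.  Let `σ` be an element of the inertia
group.  The Gauss valuation has only one prolongation to `M`, so `s(σ)` acts on its residue field, the
maximal unramified pro-`ℓ` extension of the function field of the reduction of `C`, trivially on the
latter.  A Frobenius element acts on the tame inertia group by the `q`-th power and on the abelianised
fundamental groups of the coverings of the reduction with other weights (the weight argument of
`MP_c385f6_ag.ProEllSections`, in the form of the library `Pool.Agent.R925.L`), so `s(σ)` acts trivially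
on the residue field of `M`.  But `s(σ)` is the identity on `L` and acts as `σ` on `k̄`, so the inertia
group acts trivially on the residue field of `k̄ L`, which is a contradiction.  Finally, in the second
case of the assumption, `δ_1 z` with `δ_1^ℓ = d` is a unit for the Gauss valuation, and an element of the
inertia group multiplies it by a root of unity of order `ℓ`.

The theorem is stated for an arbitrary extension `N ⊇ M` of `k(x)` instead of `M`, for instance the field
of `π₁(Y)`, and also for infinite extensions `L/k(x)`.
-/

set_option autoImplicit false

open Polynomial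

namespace Pool.Agent.Results.MP_c385f6_ag.CoversOfTheLine

open Pool.Agent.Results.MP_c385f6_ag.EtaleCoverings

/-- `F = k(x)` is the field of rational functions in `x`. -/
def IsRationalFunctionField {k F : Type} [Field k] [Field F] [Algebra k F] (x : F) : Prop :=
  Transcendental k x ∧ IntermediateField.adjoin k {x} = (⊤ : IntermediateField k F)

/-- The maximal unramified pro-`ℓ` extension `M` of `k̄ F(y)` in `Ω`, as an extension of `F`. -/
noncomputable def coverField (ℓ : ℕ) (k F Ω : Type) [Field k] [Field F] [Field Ω] [Algebra k F]
    [Algebra F Ω] [Algebra k Ω] (y : Ω) : IntermediateField F Ω :=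
  (proEllField ℓ k (IntermediateField.adjoin F {y}) Ω).restrictScalars F

/-- The valuation ring `O` of `Ω` induces on `K(x)` the Gauss valuation with respect to `x`: if the
coefficients of `p ∈ K[x]` are in `O` and not all of them are in the maximal ideal of `O`, then `p(x)` is
a unit of `O`. -/
def InducesGauss (K : Type) {Ω : Type} [Field K] [Field Ω] [Algebra K Ω] (x : Ω)
    (O : ValuationSubring Ω) : Prop :=
  ∀ p : K[X], (∀ n, algebraMap K Ω (p.coeff n) ∈ O) →
    (∃ n, algebraMap K Ω (p.coeff n) ∉ O.nonunits) → aeval x p ∈ O ∧ aeval x p ∉ O.nonunits

/-- The valuation ring `O` of `Ω` contains `A`, its maximal ideal contains the one of `A`, and it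
induces on `k̄(x)` the Gauss valuation with respect to `x`. -/
def GaussAt (A k : Type) {Ω : Type} [CommRing A] [IsLocalRing A] [Field k] [Field Ω] [Algebra A k]
    [Algebra k Ω] (x : Ω) (O : ValuationSubring Ω) : Prop :=
  (∀ a : A, algebraMap k Ω (algebraMap A k a) ∈ O) ∧
  (∀ a ∈ IsLocalRing.maximalIdeal A, algebraMap k Ω (algebraMap A k a) ∈ O.nonunits) ∧
  InducesGauss (algebraicClosure k Ω) x O

/-- The inertia group of `k` acts nontrivially on the residue field of the Gauss valuation with
respect to `x` of the field `k̄ L`: there is an automorphism `γ` of `Ω` over `L` which acts on `k̄` as an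
element of the inertia group (trivially on the residue field of `k̄ ∩ O`), and an element `z` of
`k̄ L ∩ O` such that `γ z` and `z` are not congruent modulo the maximal ideal of `O`. -/
def InertiaActs (A k : Type) {F Ω : Type} [CommRing A] [IsLocalRing A] [Field k] [Field F] [Field Ω]
    [Algebra A k] [Algebra F Ω] [Algebra k Ω] (x : Ω) (L : IntermediateField F Ω) : Prop :=
  ∃ (O : ValuationSubring Ω) (γ : Ω ≃ₐ[F] Ω) (z : Ω), GaussAt A k x O ∧ (∀ w ∈ L, γ w = w) ∧
    (∀ c ∈ algebraicClosure k Ω, c ∈ O → γ c - c ∈ O.nonunits) ∧
    z ∈ IntermediateField.adjoin (algebraicClosure k Ω) (L : Set Ω) ∧ z ∈ O ∧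
    γ z - z ∉ O.nonunits

/-- `L` contains a function `z` with `d z^ℓ = h(x)`, where `h ∈ A[x]` has a coefficient which is a unit
and the valuation of `d ∈ k` is not divisible by `ℓ`. -/
def ContainsTwistedRoot (A k : Type) {F Ω : Type} [CommRing A] [IsLocalRing A] [Field k] [Field F]
    [Field Ω] [Algebra A k] [Algebra k F] [Algebra F Ω] [Algebra k Ω] (ℓ : ℕ) (x : F)
    (L : IntermediateField F Ω) : Prop :=
  ∃ (h : A[X]) (d : k) (z : Ω), (∃ n, IsUnit (h.coeff n)) ∧ ValuationPrimeTo A ℓ d ∧ z ∈ L ∧
    algebraMap k Ω d * z ^ ℓ = algebraMap F Ω (aeval x (h.map (algebraMap A k)))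

/-- The assumption on `L`: the inertia group of `k` acts nontrivially on the residue field of the Gauss
valuation of `k̄ L` (`InertiaActs`), or `L` contains a function as in `ContainsTwistedRoot`. -/
def BadReduction (A k : Type) {F Ω : Type} [CommRing A] [IsLocalRing A] [Field k] [Field F]
    [Field Ω] [Algebra A k] [Algebra k F] [Algebra F Ω] [Algebra k Ω] (ℓ : ℕ) (x : F)
    (L : IntermediateField F Ω) : Prop :=
  InertiaActs A k (algebraMap F Ω x) L ∨ ContainsTwistedRoot A k ℓ x L

/-- Let the splitting `s` of `Gal(N/F) → Gal(K/k)` have its image in `Gal(N/L)`, `L ⊆ M ⊆ N`.  It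
induces on `M` the section of exactly one point above a root of `f`, and this is a `k`-rational point
of the curve with function field `L`: there is a valuation ring `W` of `N` above the point `x = e`,
where `e ∈ k` is a root of `f`, such that the residue field of `W ∩ L` is `k`, and such that the image
of `s` in `Gal(M/L)` is contained in the decomposition group of `W ∩ M`; and `W ∩ M` is the only such
valuation ring above a root of `f`, that is, with `f(x)` in its maximal ideal. -/
def FromOnePoint {k F Ω K N : Type} [Field k] [Field F] [Field Ω] [Field K] [Field N]
    [Algebra k F] [Algebra k K] [Algebra F N] [Algebra F Ω] [Algebra K Ω] [Algebra N Ω]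
    (f : k[X]) (x : F) (s : Splitting k F Ω K N) (M L : IntermediateField F Ω) : Prop :=
  ∃ W : ValuationSubring N,
    (∃ e : k, f.eval e = 0 ∧ ZeroAt k W (x - algebraMap k F e)) ∧
    (∀ z : N, algebraMap N Ω z ∈ L → z ∈ W →
      ∃ c : k, z - algebraMap F N (algebraMap k F c) ∈ W.nonunits) ∧
    InDecomposition s M W ∧
    ∀ W' : ValuationSubring N, ZeroAt k W' (aeval x f) → InDecomposition s M W' →
      ∀ z : N, algebraMap N Ω z ∈ M → (z ∈ W' ↔ z ∈ W)

/-- Let `L ⊆ M ⊆ N`.  Every section of `Gal(N/L) → Gal(K/k)`, that is, every splitting `s` of
`Gal(N/F) → Gal(K/k)` all of whose values are the identity on `L`, induces on `M` the section of exactly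
one point above a root of `f`, and this is a `k`-rational point of the curve with function field `L`
(`FromOnePoint`). -/
def AllFromOnePoint {k F Ω : Type} (K N : Type) [Field k] [Field F] [Field Ω] [Field K]
    [Field N] [Algebra k F] [Algebra k K] [Algebra F N] [Algebra F Ω] [Algebra K Ω] [Algebra N Ω]
    (f : k[X]) (x : F) (M L : IntermediateField F Ω) : Prop :=
  ∀ s : Splitting k F Ω K N, (∀ σ, ∀ z : N, algebraMap N Ω z ∈ L → s.toHom σ z = z) →
    FromOnePoint f x s M L

/-- Let `F = k(x)`, let `Ω` be an algebraic closure of `F`, let `y ∈ Ω` with `y^ℓ = f(x)`, and let `M`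
be the maximal unramified pro-`ℓ` extension of `k̄(x, y)`.  Let `L ⊆ M` be any extension of `k(x)`, such
that the inertia group of `k` acts nontrivially on the residue field of `k̄ L` for the Gauss
valuation, or such that `L` contains a function `z` as in `ContainsTwistedRoot`.  For all extensions
`N ⊇ M` of `F` in `Ω`, every section of `Gal(N/L) → G_k`, that is, every continuous homomorphism from
`G_k` to the group of automorphisms of `N` over `F` whose values are the identity on `L` and act as
they should on the algebraic closure of `k`, induces on `M` the section of exactly one point above a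
root of `f`, and this is a `k`-rational point of the curve with function field `L`. -/
def SectionsOfCovers (A k : Type) [CommRing A] [IsLocalRing A] [Field k] [Algebra A k] (ℓ : ℕ)
    (f : k[X]) : Prop :=
  ∀ (F Ω : Type) [Field F] [Field Ω] [Algebra k F] [Algebra F Ω] [Algebra k Ω]
    [IsScalarTower k F Ω] [IsAlgClosure F Ω] (x : F) (y : Ω),
    IsRationalFunctionField (k := k) x → y ^ ℓ = algebraMap F Ω (aeval x f) →
    ∀ L N : IntermediateField F Ω, L ≤ coverField ℓ k F Ω y → coverField ℓ k F Ω y ≤ N →
      BadReduction A k ℓ x L →
      AllFromOnePoint (algebraicClosure k Ω) N f x (coverField ℓ k F Ω y) L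

/-- if there is a section, then the algebraic closure of `k` in `L` is `k` -/
lemma constants {k F Ω : Type} [Field k] [CharZero k] [Field F] [Field Ω] [Algebra k F]
    [Algebra F Ω] [Algebra k Ω] [IsScalarTower k F Ω] [IsAlgClosure F Ω]
    {L N : IntermediateField F Ω} (hLN : L ≤ N)
    (s : Splitting k F Ω (algebraicClosure k Ω) N)
    (hs : ∀ σ, ∀ z : N, algebraMap N Ω z ∈ L → s.toHom σ z = z) (c : Ω)
    (hc : c ∈ algebraicClosure k Ω) (hcL : c ∈ L) : ∃ a : k, algebraMap k Ω a = c := by
  have hcl : IsAlgClosed Ω := IsAlgClosure.isAlgClosed F
  have hac : IsAlgClosure k (algebraicClosure k Ω) := inferInstance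
  have hn : Normal k (algebraicClosure k Ω) := IsAlgClosure.normal k _
  have hgal : IsGalois k (algebraicClosure k Ω) := ⟨⟩
  have hfix : ∀ σ : algebraicClosure k Ω ≃ₐ[k] algebraicClosure k Ω,
      σ ⟨c, hc⟩ = ⟨c, hc⟩ := by
    intro σ
    have h1 := s.compat σ ⟨c, hc⟩ ⟨c, hLN hcL⟩ rfl
    rw [hs σ ⟨c, hLN hcL⟩ hcL] at h1
    exact Subtype.ext h1.symm
  obtain ⟨a, ha⟩ := IntermediateField.mem_bot.1
    ((InfiniteGalois.mem_bot_iff_fixed (⟨c, hc⟩ : algebraicClosure k Ω)).2 hfix)
  exact ⟨a, congrArg (fun w : algebraicClosure k Ω => (w : Ω)) ha⟩

/-- Let `A` be a complete discrete valuation ring with finite residue field and with field of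
fractions `k` of characteristic zero, `ℓ` a prime number invertible in `A`, and `f ∈ A[x]` a polynomial
with invertible leading coefficient and separable reduction, whose degree is at least 3 and divisible
by `ℓ`.  Let `L` be any extension of `k(x)` contained in the maximal unramified pro-`ℓ` extension `M` of
`k̄(x, y)`, `y^ℓ = f(x)`, for instance the function field of any geometrically connected covering `Y`
of the line over which the corresponding orbifold covering of `(ℙ¹, f = 0)` is defined.  If the inertia
group of `k` acts nontrivially on the residue field of the Gauss valuation of `k̄ L`, or if `L` contains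
a function `z` with `d z^ℓ = h(x)`, `h ∈ A[x]` primitive and `d` of valuation not divisible by `ℓ`, then
every section of `Gal(N/L) → G_k`, `N ⊇ M`, for instance of the fundamental group of `Y` and of its
geometrically pro-`ℓ` quotient, induces on `M` the section of exactly one point of `Y` above a root of
`f`, and this is a `k`-rational point of `Y`. -/
theorem result (A k : Type) [CommRing A] [IsDomain A] [IsDiscreteValuationRing A]
    [IsAdicComplete (IsLocalRing.maximalIdeal A) A] [Finite (IsLocalRing.ResidueField A)]
    [Field k] [CharZero k] [Algebra A k] [IsFractionRing A k] (ℓ : ℕ) [Fact ℓ.Prime]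
    (f : A[X]) (hℓ : IsUnit (ℓ : A)) (hf : GoodPolynomial ℓ f) :
    SectionsOfCovers A k ℓ (f.map (algebraMap A k)) := by
  intro F Ω _ _ _ _ _ _ _ x y hx hy L N hL hN hI s hs
  obtain ⟨hx, hF⟩ := hx
  have hcl : IsAlgClosed Ω := IsAlgClosure.isAlgClosed F
  have halg : Algebra.IsAlgebraic F Ω := IsAlgClosure.isAlgebraic
  have hI' : Pool.Agent.H66.SC.InertiaActs A k (algebraMap F Ω x) L := by
    rcases hI with hI | ⟨h, d, z, hh, hd, hzL, hz⟩
    · exact hI
    · exact Pool.Agent.H66.SC.criterion hℓ x hx L
        (fun c hc hcL => constants (hL.trans hN) s hs c hc hcL) h hh d hd z hzL hz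
  exact Pool.Agent.H66.SC.main f hℓ hf x hx hF y hy L N hL hN hI' s hs

end Pool.Agent.Results.MP_c385f6_ag.CoversOfTheLine
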